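import Mathlib

/-!
# Infinitely many triples with three consecutive multiplicatively dependent shifts

For every `k ≥ 3` the triple `(2, 2 ^ k - 2, 2 ^ k (2 ^ k - 2))` is admissible:
the third entry is `2 ^ k` times the second one, the third entry plus one is the square of the second
entry plus one, and `2 + 2 = 4` and `(2 ^ k - 2) + 2 = 2 ^ k` are powers of two.
-/

set_option autoImplicit false

namespace Pool.Agent.Results.MP_0e3340_nt.InfinitelyManyTriples

/-- The triple `(x, y, z)` of nonzero integers is multiplicatively dependent: there are integers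
`k`, `l`, `m`, not all zero, with `x ^ k * y ^ l * z ^ m = 1` (as rational numbers). -/
def MultDependent (x y z : ℤ) : Prop :=
  x ≠ 0 ∧ y ≠ 0 ∧ z ≠ 0 ∧ ∃ k l m : ℤ, ¬ (k = 0 ∧ l = 0 ∧ m = 0) ∧
    (x : ℚ) ^ k * (y : ℚ) ^ l * (z : ℚ) ^ m = 1

/-- The triple `(a, b, c)` is admissible: the entries are distinct integers larger than one, `2` and
`8` are not both among them, and the triples `(a + i, b + i, c + i)` for `i = 0, 1, 2` are
multiplicatively dependent. -/
def Admissible (a b c : ℤ) : Prop :=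
  1 < a ∧ 1 < b ∧ 1 < c ∧ a ≠ b ∧ a ≠ c ∧ b ≠ c ∧
  ¬ (({2, 8} : Set ℤ) ⊆ {a, b, c}) ∧
  MultDependent a b c ∧ MultDependent (a + 1) (b + 1) (c + 1) ∧
  MultDependent (a + 2) (b + 2) (c + 2)

theorem admissible_family (k : ℕ) (hk : 3 ≤ k) :
    (2 : ℤ) < 2 ^ k - 2 ∧ (2 : ℤ) ^ k - 2 < 2 ^ k * (2 ^ k - 2) ∧
    Admissible 2 (2 ^ k - 2) (2 ^ k * (2 ^ k - 2)) := by
  have h8 : (8 : ℤ) ≤ 2 ^ k := by
    calc (8 : ℤ) = 2 ^ 3 := by norm_num
      _ ≤ 2 ^ k := pow_le_pow_right₀ (by norm_num) hk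
  set A : ℤ := 2 ^ k with hA
  have h1 : (2 : ℤ) < A - 2 := by linarith
  have h2 : A - 2 < A * (A - 2) := by nlinarith
  have hAq : ((A : ℤ) : ℚ) = 2 ^ (k : ℤ) := by rw [hA]; push_cast; rw [zpow_natCast]
  have hA0 : ((A : ℤ) : ℚ) ≠ 0 := by
    have : A ≠ 0 := by omega
    exact_mod_cast this
  have hB0 : ((A - 2 : ℤ) : ℚ) ≠ 0 := by
    have : A - 2 ≠ 0 := by omega
    exact_mod_cast this
  have hC0 : ((A - 1 : ℤ) : ℚ) ≠ 0 := by
    have : A - 1 ≠ 0 := by omega
    exact_mod_cast this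
  refine ⟨h1, h2, by norm_num, by linarith, by linarith, by linarith, by linarith, by linarith, ?_, ?_,
    ?_, ?_⟩
  · intro h
    have h' : (8 : ℤ) ∈ ({2, A - 2, A * (A - 2)} : Set ℤ) := h (by simp)
    simp only [Set.mem_insert_iff, Set.mem_singleton_iff] at h'
    rcases h' with h' | h' | h'
    · norm_num at h'
    · have hA10 : (2 : ℤ) ^ k = 10 := by rw [← hA]; linarith
      obtain ⟨j, rfl⟩ : ∃ j, k = j + 2 := ⟨k - 2, by omega⟩
      rw [pow_add] at hA10
      omega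
    · nlinarith
  · refine ⟨by norm_num, by omega, by nlinarith, (k : ℤ), 1, -1, by omega, ?_⟩
    rw [Int.cast_mul, show ((2 : ℤ) : ℚ) = 2 by norm_num, ← hAq, zpow_one, zpow_neg_one]
    field_simp
  · refine ⟨by norm_num, by omega, by nlinarith, 0, 2, -1, by omega, ?_⟩
    have e1 : A - 2 + 1 = A - 1 := by ring
    have e2 : A * (A - 2) + 1 = (A - 1) ^ 2 := by ring
    rw [e1, e2, zpow_zero, one_mul, Int.cast_pow, zpow_neg_one]
    have e3 : ((A - 1 : ℤ) : ℚ) ^ (2 : ℤ) = ((A - 1 : ℤ) : ℚ) ^ (2 : ℕ) := by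
      rw [← zpow_natCast]; norm_num
    rw [e3]
    exact mul_inv_cancel₀ (pow_ne_zero 2 hC0)
  · refine ⟨by norm_num, by omega, by nlinarith, (k : ℤ), -2, 0, by omega, ?_⟩
    have e1 : A - 2 + 2 = A := by ring
    rw [e1, zpow_zero, mul_one, hAq, ← zpow_mul]
    have e2 : ((2 + 2 : ℤ) : ℚ) = 2 ^ (2 : ℤ) := by norm_num
    rw [e2, ← zpow_mul, ← zpow_add₀ (by norm_num : (2 : ℚ) ≠ 0)]
    rw [show (2 : ℤ) * k + k * (-2) = 0 by ring, zpow_zero]

/-- **Theorem.** There are infinitely many admissible triples `(a, b, c)` with `a < b < c`. -/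
theorem result : {t : ℤ × ℤ × ℤ | t.1 < t.2.1 ∧ t.2.1 < t.2.2 ∧ Admissible t.1 t.2.1 t.2.2}.Infinite := by
  have hinj : Function.Injective
      (fun k : ℕ => ((2 : ℤ), (2 : ℤ) ^ (k + 3) - 2, (2 : ℤ) ^ (k + 3) * (2 ^ (k + 3) - 2))) := by
    intro x y hxy
    simp only [Prod.mk.injEq] at hxy
    have h : (2 : ℤ) ^ (x + 3) = 2 ^ (y + 3) := by linarith [hxy.2.1]
    have h' := Int.pow_right_injective (by norm_num : 1 < Int.natAbs 2) h
    omega
  refine (Set.infinite_range_of_injective hinj).mono ?_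
  rintro _ ⟨k, rfl⟩
  obtain ⟨h1, h2, h3⟩ := admissible_family (k + 3) (by omega)
  exact ⟨h1, h2, h3⟩

end Pool.Agent.Results.MP_0e3340_nt.InfinitelyManyTriples
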